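import Mathlib

/-! Exact factorizations of countable groups into two infinite subsets: the greedy construction. -/

set_option autoImplicit false

namespace Pool.Agent.V11290.EF

variable {G : Type*} [Group G]

/-- exact factorization into two infinite sets -/
def Fact (G : Type*) [Group G] : Prop :=
  ∃ A B : Set G, A.Infinite ∧ B.Infinite ∧ ∀ g : G, ∃! p : G × G, p.1 ∈ A ∧ p.2 ∈ B ∧ p.1 * p.2 = g

/-- there is room for the greedy algorithm -/
def Good (G : Type*) [Group G] : Prop :=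
  ∀ (E : Finset G) (L : Finset (G × G)), (∀ p ∈ L, p.2 ≠ 1) →
    ∃ x, x ∉ E ∧ ∀ p ∈ L, (x * p.1) * (x * p.1) ≠ p.2

/-- the product of `A` and `B` is direct -/
def Inj (A B : Finset G) : Prop :=
  ∀ a ∈ A, ∀ b ∈ B, ∀ a' ∈ A, ∀ b' ∈ B, a * b = a' * b' → a = a' ∧ b = b'

open Classical in
theorem step (hG : Good G) {A B : Finset G} (h : Inj A B) {g : G}
    (hg : ∀ a ∈ A, ∀ b ∈ B, a * b ≠ g) :
    ∃ x y, x ∉ A ∧ y ∉ B ∧ x * y = g ∧ Inj (insert x A) (insert y B) := by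
  set E : Finset G := A ∪ (A ×ˢ B ×ˢ B).image (fun p => p.1 * p.2.1 * p.2.2⁻¹) ∪
    (A ×ˢ A ×ˢ B).image (fun p => g * (p.1⁻¹ * p.2.1 * p.2.2)⁻¹) ∪ B.image (fun b => g * b⁻¹) with hE
  set L : Finset (G × G) := (A ×ˢ B).image (fun p => (p.2 * g⁻¹, p.1 * p.2 * g⁻¹)) with hL
  obtain ⟨x, hx, hxL⟩ := hG E L (by
    intro p hp
    rw [hL, Finset.mem_image] at hp
    obtain ⟨⟨a, b⟩, hab, rfl⟩ := hp
    rw [Finset.mem_product] at hab
    intro h1
    exact hg a hab.1 b hab.2 (mul_inv_eq_one.1 h1))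
  have hxA : x ∉ A := fun h => hx (by
    rw [hE]
    simp only [Finset.mem_union]
    exact Or.inl (Or.inl (Or.inl h)))
  have f3 : ∀ a ∈ A, ∀ b ∈ B, ∀ b' ∈ B, x * b' ≠ a * b := by
    intro a ha b hb b' hb' h1
    apply hx
    rw [hE]
    simp only [Finset.mem_union]
    refine Or.inl (Or.inl (Or.inr ?_))
    rw [Finset.mem_image]
    refine ⟨(a, b, b'), by simp [ha, hb, hb'], ?_⟩
    show a * b * b'⁻¹ = x
    rw [← h1]
    group
  have f4 : ∀ a ∈ A, ∀ a' ∈ A, ∀ b' ∈ B, a * (x⁻¹ * g) ≠ a' * b' := by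
    intro a ha a' ha' b' hb' h1
    apply hx
    rw [hE]
    simp only [Finset.mem_union]
    refine Or.inl (Or.inr ?_)
    rw [Finset.mem_image]
    refine ⟨(a, a', b'), by simp [ha, ha', hb'], ?_⟩
    show g * (a⁻¹ * a' * b')⁻¹ = x
    rw [mul_assoc a⁻¹, ← h1]
    group
  have f2 : x⁻¹ * g ∉ B := by
    intro h1
    apply hx
    rw [hE]
    simp only [Finset.mem_union]
    refine Or.inr ?_
    rw [Finset.mem_image]
    exact ⟨_, h1, by group⟩
  have f5 : ∀ a ∈ A, ∀ b ∈ B, x * b ≠ a * (x⁻¹ * g) := by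
    intro a ha b hb h1
    refine hxL (b * g⁻¹, a * b * g⁻¹) ?_ ?_
    · rw [hL, Finset.mem_image]
      exact ⟨(a, b), by simp [ha, hb], rfl⟩
    · show x * (b * g⁻¹) * (x * (b * g⁻¹)) = a * b * g⁻¹
      have h2 : x * (b * g⁻¹) = a * x⁻¹ := by
        rw [← mul_assoc, h1]
        group
      nth_rewrite 1 [h2]
      group
  have f6 : x * (x⁻¹ * g) = g := by group
  have f7 : ∀ b ∈ B, x * b ≠ g := by
    intro b hb h1
    apply f2
    rw [← h1]
    simpa using hb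
  have f8 : ∀ a ∈ A, a * (x⁻¹ * g) ≠ g := by
    intro a ha h1
    apply hxA
    have : a * x⁻¹ = 1 := by
      rw [← mul_assoc] at h1
      exact mul_eq_right.1 h1
    rw [mul_inv_eq_one] at this
    rw [← this]
    exact ha
  refine ⟨x, x⁻¹ * g, hxA, f2, f6, ?_⟩
  intro a ha b hb a' ha' b' hb' hab
  rw [Finset.mem_insert] at ha hb ha' hb'
  rcases ha with rfl | ha <;> rcases hb with rfl | hb <;> rcases ha' with rfl | ha' <;>
    rcases hb' with rfl | hb'
  · exact ⟨rfl, rfl⟩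
  · rw [f6] at hab
    exact absurd hab.symm (f7 _ hb')
  · rw [f6] at hab
    exact absurd hab.symm (f8 _ ha')
  · rw [f6] at hab
    exact absurd hab.symm (hg _ ha' _ hb')
  · rw [f6] at hab
    exact absurd hab (f7 _ hb)
  · exact ⟨rfl, mul_left_cancel hab⟩
  · exact absurd hab (f5 _ ha' _ hb)
  · exact absurd hab (f3 _ ha' _ hb' _ hb)
  · rw [f6] at hab
    exact absurd hab (f8 _ ha)
  · exact absurd hab.symm (f5 _ ha _ hb')
  · exact ⟨mul_right_cancel hab, rfl⟩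
  · exact absurd hab (f4 _ ha _ ha' _ hb')
  · rw [f6] at hab
    exact absurd hab (hg _ ha _ hb)
  · exact absurd hab.symm (f3 _ ha _ hb _ hb')
  · exact absurd hab.symm (f4 _ ha' _ ha _ hb)
  · exact h _ ha _ hb _ ha' _ hb' hab

/-- the finite approximations -/
def Apx (G : Type*) [Group G] : Type _ := {p : Finset G × Finset G // Inj p.1 p.2}

instance : Preorder (Apx G) := Preorder.lift (fun p => (p.1 : Finset G × Finset G))

theorem exists_out [Infinite G] (A B : Finset G) : ∃ g : G, ∀ a ∈ A, ∀ b ∈ B, a * b ≠ g := by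
  classical
  obtain ⟨g, hg⟩ := Infinite.exists_notMem_finset ((A ×ˢ B).image fun p => p.1 * p.2)
  refine ⟨g, fun a ha b hb h => hg ?_⟩
  rw [Finset.mem_image]
  exact ⟨(a, b), by simp [ha, hb], h⟩

open Classical in
theorem grow [Infinite G] (hG : Good G) (n : ℕ) (p : Apx G) :
    ∃ q : Apx G, p ≤ q ∧ n ≤ q.1.1.card ∧ n ≤ q.1.2.card := by
  induction n with
  | zero => exact ⟨p, le_rfl, Nat.zero_le _, Nat.zero_le _⟩
  | succ n ih =>
    obtain ⟨q, hq, h1, h2⟩ := ih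
    obtain ⟨g, hg⟩ := exists_out q.1.1 q.1.2
    obtain ⟨x, y, hx, hy, -, hI⟩ := step hG q.2 hg
    refine ⟨⟨(insert x q.1.1, insert y q.1.2), hI⟩, hq.trans ?_, ?_, ?_⟩
    · exact ⟨Finset.subset_insert _ _, Finset.subset_insert _ _⟩
    · show n + 1 ≤ (insert x q.1.1).card
      rw [Finset.card_insert_of_notMem hx]
      omega
    · show n + 1 ≤ (insert y q.1.2).card
      rw [Finset.card_insert_of_notMem hy]
      omega

/-- the cofinal sets -/
def cof [Infinite G] (hG : Good G) : G ⊕ ℕ → Order.Cofinal (Apx G)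
  | Sum.inl g => ⟨{q | ∃ a ∈ q.1.1, ∃ b ∈ q.1.2, a * b = g}, by
      classical
      intro p
      by_cases h : ∃ a ∈ p.1.1, ∃ b ∈ p.1.2, a * b = g
      · exact ⟨p, h, le_rfl⟩
      · push Not at h
        obtain ⟨x, y, hx, hy, hxy, hI⟩ := step hG p.2 h
        refine ⟨⟨(insert x p.1.1, insert y p.1.2), hI⟩, ⟨x, ?_, y, ?_, hxy⟩, ?_⟩
        · exact Finset.mem_insert_self _ _
        · exact Finset.mem_insert_self _ _
        · exact ⟨Finset.subset_insert _ _, Finset.subset_insert _ _⟩⟩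
  | Sum.inr n => ⟨{q | n ≤ q.1.1.card ∧ n ≤ q.1.2.card}, by
      intro p
      obtain ⟨q, h1, h2, h3⟩ := grow hG n p
      exact ⟨q, ⟨h2, h3⟩, h1⟩⟩

theorem fact_of_good [Countable G] [Infinite G] (hG : Good G) : Fact G := by
  classical
  let _ : Encodable (G ⊕ ℕ) := Encodable.ofCountable _
  let p₀ : Apx G := ⟨(∅, ∅), fun a ha => absurd ha (Finset.notMem_empty a)⟩
  set I := Order.idealOfCofinals p₀ (cof hG) with hI
  have key : ∀ i, ∃ q : Apx G, q ∈ cof hG i ∧ q ∈ I := Order.cofinal_meets_idealOfCofinals p₀ (cof hG)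
  refine ⟨{a | ∃ q ∈ I, a ∈ q.1.1}, {b | ∃ q ∈ I, b ∈ q.1.2}, ?_, ?_, fun g => ?_⟩
  · intro hfin
    obtain ⟨q, hq, hqI⟩ := key (Sum.inr (hfin.toFinset.card + 1))
    have h1 : hfin.toFinset.card + 1 ≤ q.1.1.card := hq.1
    have h2 : q.1.1 ⊆ hfin.toFinset := fun a ha => by
      rw [Set.Finite.mem_toFinset]
      exact ⟨q, hqI, ha⟩
    have := Finset.card_le_card h2
    omega
  · intro hfin
    obtain ⟨q, hq, hqI⟩ := key (Sum.inr (hfin.toFinset.card + 1))
    have h1 : hfin.toFinset.card + 1 ≤ q.1.2.card := hq.2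
    have h2 : q.1.2 ⊆ hfin.toFinset := fun a ha => by
      rw [Set.Finite.mem_toFinset]
      exact ⟨q, hqI, ha⟩
    have := Finset.card_le_card h2
    omega
  · obtain ⟨q, ⟨a, ha, b, hb, hab⟩, hqI⟩ := key (Sum.inl g)
    refine ⟨(a, b), ⟨⟨q, hqI, ha⟩, ⟨q, hqI, hb⟩, hab⟩, ?_⟩
    rintro ⟨a', b'⟩ ⟨⟨q₁, h1, ha'⟩, ⟨q₂, h2, hb'⟩, hab'⟩
    obtain ⟨r, hr, hqr, h1r⟩ := I.directed q hqI q₁ h1
    obtain ⟨t, ht, hrt, h2t⟩ := I.directed r hr q₂ h2
    have hab2 : a' * b' = a * b := by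
      rw [hab]
      exact hab'
    have := t.2 a' ((h1r.trans hrt).1 ha') b' (h2t.2 hb') a ((hqr.trans hrt).1 ha) b
      ((hqr.trans hrt).2 hb) hab2
    exact Prod.ext this.1 this.2

end Pool.Agent.V11290.EF
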