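import Pool.Agent.V11290.EF.Greedy

/-! Exact factorizations of countable groups into two infinite subsets: the cases. -/

set_option autoImplicit false

namespace Pool.Agent.V11290.EF

variable {G : Type*} [Group G]

/-- a factorization of a subgroup gives a factorization of the group -/
theorem fact_of_subgroup (N : Subgroup G) (h : Fact N) : Fact G := by
  obtain ⟨A, B, hA, hB, hAB⟩ := h
  obtain ⟨T, hT, h1T⟩ := Subgroup.exists_isComplement_left N 1
  refine ⟨{g | ∃ t ∈ T, ∃ a ∈ A, g = t * a}, (↑) '' B, ?_, ?_, fun g => ?_⟩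
  · have h1 : ((↑) '' A : Set G) ⊆ {g | ∃ t ∈ T, ∃ a ∈ A, g = t * a} := by
      rintro _ ⟨a, ha, rfl⟩
      exact ⟨1, h1T, a, ha, by simp⟩
    exact (hA.image Subtype.val_injective.injOn).mono h1
  · exact hB.image Subtype.val_injective.injOn
  · obtain ⟨⟨t, n⟩, htn, huniq⟩ := (Function.Bijective.existsUnique hT g)
    obtain ⟨⟨a, b⟩, ⟨ha, hb, hab⟩, huniq2⟩ := hAB n
    have htn' : (t : G) * (n : G) = g := htn
    refine ⟨((t : G) * a, (b : G)), ⟨⟨t, t.2, a, ha, rfl⟩, ⟨b, hb, rfl⟩, ?_⟩, ?_⟩
    · show (t : G) * a * b = g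
      rw [mul_assoc, ← htn', ← hab]
      rfl
    · rintro ⟨_, _⟩ ⟨⟨t', ht', a', ha', rfl⟩, ⟨b', hb', rfl⟩, h3⟩
      have h3' : t' * ((a' * b' : N) : G) = g := by
        rw [← h3]
        show t' * ((a' : G) * b') = t' * a' * b'
        rw [mul_assoc]
      have h4 := huniq (⟨t', ht'⟩, (a' * b' : N)) h3'
      have h5 : (⟨t', ht'⟩ : T) = t := congrArg Prod.fst h4
      have h6 : (a' * b' : N) = n := congrArg Prod.snd h4
      have h7 := huniq2 (a', b') ⟨ha', hb', h6⟩
      have h8 : a' = a := congrArg Prod.fst h7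
      have h9 : b' = b := congrArg Prod.snd h7
      have h10 : t' = (t : G) := congrArg Subtype.val h5
      rw [h8, h9, h10]

/-- an infinite subgroup of infinite index -/
theorem fact_of_index (H : Subgroup G) (h1 : Infinite H) (h2 : ¬ H.FiniteIndex) : Fact G := by
  obtain ⟨T, hT, h1T⟩ := Subgroup.exists_isComplement_right H 1
  refine ⟨H, T, ?_, ?_, fun g => ?_⟩
  · exact Set.infinite_coe_iff.1 h1
  · intro hfin
    apply h2
    have h3 := hT.card_right
    have h4 : Finite T := hfin
    have h5 : Nonempty T := ⟨⟨1, h1T⟩⟩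
    refine ⟨?_⟩
    rw [← h3]
    exact Nat.card_pos.ne'
  · obtain ⟨⟨x, y⟩, hxy, huniq⟩ := (Function.Bijective.existsUnique hT g)
    refine ⟨((x : G), (y : G)), ⟨x.2, y.2, hxy⟩, ?_⟩
    rintro ⟨x', y'⟩ ⟨hx', hy', h3⟩
    have h4 := huniq (⟨x', hx'⟩, ⟨y', hy'⟩) h3
    have h5 : (⟨x', hx'⟩ : (H : Set G)) = x := congrArg Prod.fst h4
    have h6 : (⟨y', hy'⟩ : T) = y := congrArg Prod.snd h4
    rw [← h5, ← h6]

/-- infinite abelian groups -/
theorem fact_comm (N : Type*) [CommGroup N] [Countable N] [Infinite N] : Fact N := by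
  classical
  by_cases h : (Set.range fun x : N => x * x).Infinite
  · refine fact_of_good fun E L hL => ?_
    set S : Finset N := L.image fun p => p.2 * (p.1 * p.1)⁻¹ with hS
    have h1 : {x : N | x * x ∉ S}.Infinite := by
      intro hfin
      apply h
      have h2 : (Set.range fun x : N => x * x) ⊆
          ((fun x : N => x * x) '' {x : N | x * x ∉ S}) ∪ (S : Set N) := by
        rintro _ ⟨x, rfl⟩
        by_cases hx : x * x ∈ S
        · exact Or.inr hx
        · exact Or.inl ⟨x, hx, rfl⟩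
      exact ((hfin.image _).union S.finite_toSet).subset h2
    obtain ⟨x, hx, hxE⟩ := h1.exists_notMem_finset E
    refine ⟨x, hxE, fun p hp h2 => hx ?_⟩
    rw [hS, Finset.mem_image]
    refine ⟨p, hp, ?_⟩
    rw [← h2, mul_mul_mul_comm, mul_assoc, mul_inv_cancel, mul_one]
  · -- the elements of order two
    set K : Subgroup N := (powMonoidHom 2 : N →* N).ker with hK
    have hKinf : Infinite K := by
      rw [← not_finite_iff_infinite]
      intro hfin
      rw [Set.not_infinite] at h
      have h1 : Set.range (powMonoidHom 2 : N →* N) = Set.range fun x : N => x * x := by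
        ext y
        simp [sq]
      have h2 : Finite (powMonoidHom 2 : N →* N).range := by
        have h3 : (((powMonoidHom 2 : N →* N).range : Subgroup N) : Set N).Finite := by
          rw [MonoidHom.coe_range, h1]
          exact h
        exact h3
      have h3 : Finite (N ⧸ K) :=
        Finite.of_equiv _ (QuotientGroup.quotientKerEquivRange (powMonoidHom 2 : N →* N)).symm.toEquiv
      have h4 : Finite N := Finite.of_equiv _ (Subgroup.groupEquivQuotientProdSubgroup (s := K)).symm
      exact not_finite N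
    refine fact_of_subgroup K (fact_of_good fun E L hL => ?_)
    obtain ⟨x, hx⟩ := Infinite.exists_notMem_finset E
    refine ⟨x, hx, fun p hp h2 => hL p hp ?_⟩
    rw [← h2]
    have h3 : ∀ y : K, y * y = 1 := by
      intro y
      have h4 : (y : N) ∈ (powMonoidHom 2 : N →* N).ker := y.2
      rw [MonoidHom.mem_ker] at h4
      apply Subtype.ext
      have h5 : (y : N) ^ 2 = 1 := h4
      rw [sq] at h5
      exact h5
    exact h3 _

/-- an infinite commutative subgroup -/
theorem fact_of_comm_subgroup [Countable G] (N : Subgroup G) (h1 : Infinite N)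
    (h2 : ∀ x ∈ N, ∀ y ∈ N, x * y = y * x) : Fact G := by
  let _ : CommGroup N := { (inferInstance : Group N) with
    mul_comm := fun x y => Subtype.ext (h2 x x.2 y y.2) }
  exact fact_of_subgroup N (fact_comm N)

section key

variable [Infinite G] (H1 : ∀ H : Subgroup G, Infinite H → H.FiniteIndex)
  (H2 : ∀ H : Subgroup G, (∀ x ∈ H, ∀ y ∈ H, x * y = y * x) → Finite H)

theorem inf_of_index (H : Subgroup G) (h : H.FiniteIndex) : Infinite H := by
  rw [← not_finite_iff_infinite]
  intro hf
  have h4 : Finite G := Finite.of_equiv _ (Subgroup.groupEquivQuotientProdSubgroup (s := H)).symm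
  exact not_finite G

/-- the elements with infinite centralizers -/
def FC (H1 : ∀ H : Subgroup G, Infinite H → H.FiniteIndex) : Subgroup G where
  carrier := {h | Infinite (Subgroup.centralizer {h})}
  one_mem' := by
    show Infinite (Subgroup.centralizer {(1 : G)})
    have : Subgroup.centralizer {(1 : G)} = ⊤ := by
      rw [Subgroup.centralizer_eq_top_iff_subset]
      simp
    rw [this]
    exact Infinite.of_injective (fun g : G => (⟨g, Subgroup.mem_top g⟩ : (⊤ : Subgroup G)))
      (fun a b h => congrArg Subtype.val h)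
  mul_mem' := by
    intro a b ha hb
    show Infinite (Subgroup.centralizer {a * b})
    have h1 := H1 _ ha
    have h2 := H1 _ hb
    have h3 : (Subgroup.centralizer {a} ⊓ Subgroup.centralizer {b} : Subgroup G).FiniteIndex :=
      inferInstance
    have h4 : Subgroup.centralizer {a} ⊓ Subgroup.centralizer {b} ≤
        Subgroup.centralizer {a * b} := by
      intro x hx
      rw [Subgroup.mem_inf, Subgroup.mem_centralizer_singleton_iff,
        Subgroup.mem_centralizer_singleton_iff] at hx
      rw [Subgroup.mem_centralizer_singleton_iff]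
      rw [← mul_assoc, hx.1, mul_assoc, hx.2, mul_assoc]
    exact inf_of_index _ (Subgroup.finiteIndex_of_le h4)
  inv_mem' := by
    intro a ha
    show Infinite (Subgroup.centralizer {a⁻¹})
    have h4 : Subgroup.centralizer {a} ≤ Subgroup.centralizer {a⁻¹} := by
      intro x hx
      rw [Subgroup.mem_centralizer_singleton_iff] at hx ⊢
      have hx' : Commute x a := hx
      exact hx'.inv_right
    have := H1 _ ha
    exact inf_of_index _ (Subgroup.finiteIndex_of_le h4)

theorem mem_FC {h : G} : h ∈ FC H1 ↔ Infinite (Subgroup.centralizer {h}) := Iff.rfl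

include H2 in
/-- the group `FC` is finite -/
theorem FC_finite : Finite (FC H1) := by
  by_contra hinf
  rw [not_finite_iff_infinite] at hinf
  have hFI := H1 _ hinf
  -- a maximal commutative subgroup
  obtain ⟨M, hM⟩ := zorn_le_nonempty₀ {K : Subgroup G | K ≤ FC H1 ∧ ∀ x ∈ K, ∀ y ∈ K, x * y = y * x}
    (by
      intro c hc hchain K hK
      have hne : c.Nonempty := ⟨K, hK⟩
      refine ⟨sSup c, ⟨sSup_le fun L hL => (hc hL).1, ?_⟩, fun L hL => le_sSup hL⟩
      intro x hx y hy
      rw [Subgroup.mem_sSup_of_directedOn hne hchain.directedOn] at hx hy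
      obtain ⟨L, hL, hxL⟩ := hx
      obtain ⟨L', hL', hyL'⟩ := hy
      rcases hchain.total hL hL' with h | h
      · exact (hc hL').2 x (h hxL) y hyL'
      · exact (hc hL).2 x hxL y (h hyL'))
    ⊥ ⟨bot_le, by
      intro x hx y hy
      rw [Subgroup.mem_bot] at hx hy
      rw [hx, hy]⟩
  obtain ⟨-, hMmax⟩ := hM
  have hMF : M ≤ FC H1 := hMmax.1.1
  have hMc : ∀ x ∈ M, ∀ y ∈ M, x * y = y * x := hMmax.1.2
  have hMfin := H2 M hMc
  -- the centralizer
  have hC : (⨅ m : M, Subgroup.centralizer {(m : G)} : Subgroup G).FiniteIndex :=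
    Subgroup.finiteIndex_iInf fun m => H1 _ (hMF m.2)
  have hD : (FC H1 ⊓ ⨅ m : M, Subgroup.centralizer {(m : G)} : Subgroup G).FiniteIndex :=
    inferInstance
  have hDinf := inf_of_index _ hD
  have hex : ∃ y ∈ (FC H1 ⊓ ⨅ m : M, Subgroup.centralizer {(m : G)} : Subgroup G), y ∉ M := by
    by_contra hno
    push Not at hno
    have h1 : Finite (FC H1 ⊓ ⨅ m : M, Subgroup.centralizer {(m : G)} : Subgroup G) :=
      Finite.of_injective (fun y => (⟨y.1, hno y.1 y.2⟩ : M))
        (fun a b h => Subtype.ext (congrArg (fun z : M => (z : G)) h))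
    exact not_finite (FC H1 ⊓ ⨅ m : M, Subgroup.centralizer {(m : G)} : Subgroup G)
  obtain ⟨y, hy, hyM⟩ := hex
  rw [Subgroup.mem_inf, Subgroup.mem_iInf] at hy
  have hcomm : ∀ m ∈ M, y * m = m * y := by
    intro m hm
    have := hy.2 ⟨m, hm⟩
    rw [Subgroup.mem_centralizer_singleton_iff] at this
    exact this
  have hset : ∀ x ∈ insert y (M : Set G), ∀ z ∈ insert y (M : Set G), x * z = z * x := by
    rintro x (rfl | hx) z (rfl | hz)
    · rfl
    · exact hcomm z hz
    · exact (hcomm x hx).symm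
    · exact hMc x hx z hz
  have hK : Subgroup.closure (insert y (M : Set G)) ∈
      {K : Subgroup G | K ≤ FC H1 ∧ ∀ x ∈ K, ∀ y ∈ K, x * y = y * x} := by
    refine ⟨?_, ?_⟩
    · rw [Subgroup.closure_le]
      rintro x (rfl | hx)
      · exact hy.1
      · exact hMF hx
    · intro x hx z hz
      have h3 := (Subgroup.isMulCommutative_closure hset).is_comm.comm ⟨x, hx⟩ ⟨z, hz⟩
      exact congrArg Subtype.val h3
  have hle : M ≤ Subgroup.closure (insert y (M : Set G)) := fun x hx =>
    Subgroup.subset_closure (Set.mem_insert_of_mem _ hx)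
  have := hMmax.2 hK hle
  exact hyM (this (Subgroup.subset_closure (Set.mem_insert _ _)))

theorem FC_normal : (FC H1).Normal := by
  refine ⟨fun h hh g => ?_⟩
  rw [mem_FC] at hh ⊢
  refine Infinite.of_injective (fun x : Subgroup.centralizer {h} =>
    (⟨g * x.1 * g⁻¹, ?_⟩ : Subgroup.centralizer {g * h * g⁻¹})) ?_
  · have := x.2
    rw [Subgroup.mem_centralizer_singleton_iff] at this ⊢
    calc g * x.1 * g⁻¹ * (g * h * g⁻¹) = g * (x.1 * h) * g⁻¹ := by group
      _ = g * (h * x.1) * g⁻¹ := by rw [this]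
      _ = _ := by group
  · intro a b hab
    have := congrArg Subtype.val hab
    apply Subtype.ext
    exact mul_left_cancel (mul_right_cancel this)

/-- the centralizer modulo `FC` of an element outside -/
theorem D_finite (hF : Finite (FC H1)) [(FC H1).Normal] {w : G} (hw : w ∉ FC H1) :
    Finite ((Subgroup.centralizer {QuotientGroup.mk' (FC H1) w}).comap
      (QuotientGroup.mk' (FC H1))) := by
  by_contra hinf
  rw [not_finite_iff_infinite] at hinf
  set D := (Subgroup.centralizer {QuotientGroup.mk' (FC H1) w}).comap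
      (QuotientGroup.mk' (FC H1)) with hD
  have h1 : ∀ z : D, z.1 * w * z.1⁻¹ * w⁻¹ ∈ FC H1 := by
    intro z
    have h2 : z.1 ∈ (Subgroup.centralizer {QuotientGroup.mk' (FC H1) w}).comap
      (QuotientGroup.mk' (FC H1)) := z.2
    rw [Subgroup.mem_comap, Subgroup.mem_centralizer_singleton_iff] at h2
    rw [← QuotientGroup.eq_one_iff]
    have h3 : ((z.1 * w * z.1⁻¹ * w⁻¹ : G) : G ⧸ FC H1) =
        (QuotientGroup.mk' (FC H1) z.1) * (QuotientGroup.mk' (FC H1) w) *
        (QuotientGroup.mk' (FC H1) z.1)⁻¹ * (QuotientGroup.mk' (FC H1) w)⁻¹ := rfl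
    rw [h3, h2]
    group
  obtain ⟨c, hc⟩ := Finite.exists_infinite_fiber (fun z : D => (⟨_, h1 z⟩ : FC H1))
  apply hw
  rw [mem_FC]
  have hne : Nonempty ((fun z : D => (⟨_, h1 z⟩ : FC H1)) ⁻¹' {c}) := inferInstance
  obtain ⟨z₀, hz₀⟩ := hne
  have e0 : z₀.1 * w * z₀.1⁻¹ * w⁻¹ = (c : G) := congrArg Subtype.val hz₀
  refine Infinite.of_injective (fun z : ((fun z : D => (⟨_, h1 z⟩ : FC H1)) ⁻¹' {c}) =>
    (⟨z₀.1⁻¹ * z.1.1, ?_⟩ : Subgroup.centralizer {w})) ?_
  · have e1 : z.1.1 * w * z.1.1⁻¹ * w⁻¹ = (c : G) := congrArg Subtype.val z.2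
    rw [Subgroup.mem_centralizer_singleton_iff]
    have e2 : z.1.1 * w * z.1.1⁻¹ = z₀.1 * w * z₀.1⁻¹ := by
      have := e1.trans e0.symm
      exact mul_right_cancel this
    calc z₀.1⁻¹ * z.1.1 * w = z₀.1⁻¹ * (z.1.1 * w * z.1.1⁻¹) * z.1.1 := by group
      _ = z₀.1⁻¹ * (z₀.1 * w * z₀.1⁻¹) * z.1.1 := by rw [e2]
      _ = w * (z₀.1⁻¹ * z.1.1) := by group
  · intro a b hab
    have := congrArg Subtype.val hab
    apply Subtype.ext
    apply Subtype.ext
    exact mul_left_cancel this

theorem inv_lemma {Q : Type*} [Group Q] {u W : Q} (h1 : u * u = 1) (h2 : u * W * (u * W) = 1) :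
    u * W = W⁻¹ * u := by
  have h3 : u⁻¹ = u := inv_eq_of_mul_eq_one_left h1
  have h4 : (u * W)⁻¹ = u * W := inv_eq_of_mul_eq_one_left h2
  rw [mul_inv_rev, h3] at h4
  exact h4.symm

theorem comm_lemma {Q : Type*} [Group Q] {u v W : Q} (h1 : u * W = W⁻¹ * u)
    (h2 : v * W = W⁻¹ * v) : u * v * W = W * (u * v) := by
  have h3 : u * W⁻¹ = W * u := by
    rw [mul_inv_eq_iff_eq_mul, mul_assoc, h1]
    group
  rw [mul_assoc, h2, ← mul_assoc, h3, mul_assoc]

include H1 H2 in
theorem good_key : Good G := by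
  classical
  have hF := FC_finite H1 H2
  have hN := FC_normal H1
  intro E L hL
  by_contra hno
  push Not at hno
  set π : G →* G ⧸ FC H1 := QuotientGroup.mk' (FC H1) with hπ
  have hπ1 : ∀ x : G, π x = 1 ↔ x ∈ FC H1 := fun x => QuotientGroup.eq_one_iff x
  -- the exceptional elements
  set Bad : Set G := {x | ∀ p ∈ L, π (x * p.1) * π (x * p.1) ≠ 1} with hBad
  have hfin1 : ∀ p ∈ L, p.2 ∉ FC H1 → {x : G | x * p.1 * (x * p.1) = p.2}.Finite := by
    intro p _ hp
    have h1 : Finite (Subgroup.centralizer {p.2}) := by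
      by_contra h2
      rw [not_finite_iff_infinite] at h2
      exact hp h2
    have h2 : ((Subgroup.centralizer {p.2} : Subgroup G) : Set G).Finite := h1
    refine Set.Finite.of_finite_image (f := fun x => x * p.1) (h2.subset ?_)
      (fun a _ b _ h => mul_right_cancel h)
    rintro _ ⟨x, hx, rfl⟩
    have hx' : x * p.1 * (x * p.1) = p.2 := hx
    show x * p.1 ∈ Subgroup.centralizer {p.2}
    rw [Subgroup.mem_centralizer_singleton_iff, ← hx']
    group
  have hBadfin : Bad.Finite := by
    have h1 : ((E : Set G) ∪ ⋃ p ∈ L.filter (fun p => p.2 ∉ FC H1),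
        {x : G | x * p.1 * (x * p.1) = p.2}).Finite := by
      refine E.finite_toSet.union (Set.Finite.biUnion (Finset.finite_toSet _) fun p hp => ?_)
      rw [Finset.mem_coe, Finset.mem_filter] at hp
      exact hfin1 p hp.1 hp.2
    refine h1.subset fun x hx => ?_
    by_cases hxE : x ∈ E
    · exact Or.inl hxE
    · obtain ⟨p, hp, hxp⟩ := hno x hxE
      refine Or.inr ?_
      rw [Set.mem_iUnion₂]
      refine ⟨p, ?_, hxp⟩
      rw [Finset.mem_filter]
      refine ⟨hp, fun h2 => hx p hp ?_⟩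
      rw [← map_mul, hxp, hπ1]
      exact h2
  -- the choice of `s`
  have hSfin : (⋃ p ∈ L, ⋃ q ∈ L, (fun f : G => p.1 * f * q.1⁻¹) '' (FC H1 : Set G)).Finite := by
    refine Set.Finite.biUnion L.finite_toSet fun p _ =>
      Set.Finite.biUnion L.finite_toSet fun q _ => Set.Finite.image _ ?_
    exact hF
  obtain ⟨s, hs⟩ := hSfin.infinite_compl.nonempty
  have hw : ∀ p ∈ L, ∀ q ∈ L, p.1⁻¹ * s * q.1 ∉ FC H1 := by
    intro p hp q hq h1
    apply hs
    rw [Set.mem_iUnion₂]
    refine ⟨p, hp, ?_⟩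
    rw [Set.mem_iUnion₂]
    exact ⟨q, hq, _, h1, by group⟩
  -- the sets `X`
  have hX : ∀ p ∈ L, ∀ q ∈ L, {x : G | π (x * p.1) * π (x * p.1) = 1 ∧
      π (x * s * q.1) * π (x * s * q.1) = 1}.Finite := by
    intro p hp q hq
    set w := p.1⁻¹ * s * q.1 with hwdef
    have hD := D_finite H1 hF (hw p hp q hq)
    by_cases hne : {x : G | π (x * p.1) * π (x * p.1) = 1 ∧
      π (x * s * q.1) * π (x * s * q.1) = 1}.Nonempty
    · obtain ⟨x₀, hx₀⟩ := hne
      have hmem : ∀ x : G, π (x * p.1) * π (x * p.1) = 1 →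
          π (x * s * q.1) * π (x * s * q.1) = 1 →
          π (x * p.1) * π w = (π w)⁻¹ * π (x * p.1) := by
        intro x h1 h2
        have h3 : x * s * q.1 = x * p.1 * w := by
          rw [hwdef]; group
        rw [h3, map_mul π (x * p.1) w] at h2
        exact inv_lemma h1 h2
      have hD' : (((Subgroup.centralizer {QuotientGroup.mk' (FC H1) w}).comap
          (QuotientGroup.mk' (FC H1)) : Subgroup G) : Set G).Finite := hD
      refine Set.Finite.of_finite_image (f := fun x => (x₀ * p.1) * (x * p.1)) (hD'.subset ?_)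
        (fun a _ b _ h => mul_right_cancel (mul_left_cancel h))
      rintro _ ⟨x, hx, rfl⟩
      show (x₀ * p.1) * (x * p.1) ∈ (Subgroup.centralizer {QuotientGroup.mk' (FC H1) w}).comap
          (QuotientGroup.mk' (FC H1))
      rw [Subgroup.mem_comap, Subgroup.mem_centralizer_singleton_iff, map_mul]
      exact comm_lemma (hmem x₀ hx₀.1 hx₀.2) (hmem x hx.1 hx.2)
    · rw [Set.not_nonempty_iff_eq_empty] at hne
      rw [hne]
      exact Set.finite_empty
  have hall : (Set.univ : Set G) ⊆ (Bad ∪ (fun y => y * s⁻¹) '' Bad) ∪ ⋃ p ∈ L, ⋃ q ∈ L,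
      {x : G | π (x * p.1) * π (x * p.1) = 1 ∧ π (x * s * q.1) * π (x * s * q.1) = 1} := by
    intro x _
    by_cases h1 : x ∈ Bad
    · exact Or.inl (Or.inl h1)
    · by_cases h2 : x * s ∈ Bad
      · exact Or.inl (Or.inr ⟨x * s, h2, by simp⟩)
      · rw [hBad, Set.mem_ofPred_eq] at h1 h2
        push Not at h1 h2
        obtain ⟨p, hp, h3⟩ := h1
        obtain ⟨q, hq, h4⟩ := h2
        refine Or.inr ?_
        rw [Set.mem_iUnion₂]
        refine ⟨p, hp, ?_⟩
        rw [Set.mem_iUnion₂]
        exact ⟨q, hq, h3, h4⟩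
  refine Set.infinite_univ (α := G) (Set.Finite.subset ?_ hall)
  refine (hBadfin.union (hBadfin.image _)).union (Set.Finite.biUnion L.finite_toSet fun p hp =>
    Set.Finite.biUnion L.finite_toSet fun q hq => hX p hp q hq)

end key

/-- **Every countably infinite group is the exact product of two infinite subsets.** -/
theorem main (G : Type*) [Group G] [Countable G] [Infinite G] : Fact G := by
  by_cases H1 : ∀ H : Subgroup G, Infinite H → H.FiniteIndex
  · by_cases H2 : ∀ H : Subgroup G, (∀ x ∈ H, ∀ y ∈ H, x * y = y * x) → Finite H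
    · exact fact_of_good (good_key H1 H2)
    · push Not at H2
      obtain ⟨N, h1, h2⟩ := H2
      exact fact_of_comm_subgroup N h2 h1
  · push Not at H1
    obtain ⟨H, h1, h2⟩ := H1
    exact fact_of_index H h1 h2

end Pool.Agent.V11290.EF
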